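import Pool.Agent.W907.RVM.Main

set_option autoImplicit false

open MeasureTheory Set
open scoped ENNReal

namespace Pool.Agent.W907.RVM

theorem filter_union_of_mem {P : Finset JJ} {T : Finset ℕ} {B : ℕ → JJ}
    (hP : ∀ ξ ∈ P, colm ξ ∉ T) (hB : ∀ t ∈ T, colm (B t) = t) {t : ℕ} (ht : t ∈ T) :
    (P ∪ T.image B).filter (fun ξ => colm ξ = t) = {B t} := by
  ext ξ
  simp only [Finset.mem_filter, Finset.mem_union, Finset.mem_image, Finset.mem_singleton]
  constructor
  · rintro ⟨h | ⟨s, hs, rfl⟩, h2⟩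
    · exact absurd (h2 ▸ ht) (hP ξ h)
    · rw [hB s hs] at h2; rw [h2]
  · rintro rfl
    exact ⟨Or.inr ⟨t, ht, rfl⟩, hB t ht⟩

theorem filter_union_of_notMem {P : Finset JJ} {T : Finset ℕ} {B : ℕ → JJ}
    (hB : ∀ t ∈ T, colm (B t) = t) {t : ℕ} (ht : t ∉ T) :
    (P ∪ T.image B).filter (fun ξ => colm ξ = t) = P.filter (fun ξ => colm ξ = t) := by
  ext ξ
  simp only [Finset.mem_filter, Finset.mem_union, Finset.mem_image]
  constructor
  · rintro ⟨h | ⟨s, hs, rfl⟩, h2⟩
    · exact ⟨h, h2⟩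
    · rw [hB s hs] at h2; exact absurd (h2 ▸ hs) ht
  · rintro ⟨h, h2⟩
    exact ⟨Or.inl h, h2⟩

/-- average in column `t` -/
noncomputable def av (y : JJ → ℝ) (P : Finset JJ) (t : ℕ) : ℝ :=
  (∑ ξ ∈ P.filter (fun ξ => colm ξ = t), y ξ) / ((P.filter (fun ξ => colm ξ = t)).card : ℝ)

theorem av_mem (y : JJ → ℝ) {P : Finset JJ} {T : Finset ℕ} {B : ℕ → JJ}
    (hP : ∀ ξ ∈ P, colm ξ ∉ T) (hB : ∀ t ∈ T, colm (B t) = t) {t : ℕ} (ht : t ∈ T) :
    av y (P ∪ T.image B) t = y (B t) := by
  unfold av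
  rw [filter_union_of_mem hP hB ht]
  simp

theorem av_notMem (y : JJ → ℝ) {P : Finset JJ} {T : Finset ℕ} {B : ℕ → JJ}
    (hB : ∀ t ∈ T, colm (B t) = t) {t : ℕ} (ht : t ∉ T) :
    av y (P ∪ T.image B) t = av y P t := by
  unfold av
  rw [filter_union_of_notMem hB ht]

theorem av_two (y : JJ → ℝ) {P : Finset JJ} {T : Finset ℕ} {B B' : ℕ → JJ}
    (hP : ∀ ξ ∈ P, colm ξ ∉ T) (hB : ∀ t ∈ T, colm (B t) = t) (hB' : ∀ t ∈ T, colm (B' t) = t)
    (hne : ∀ t ∈ T, B t ≠ B' t) (t : ℕ) :
    av y (P ∪ T.image B ∪ T.image B') t =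
      (av y (P ∪ T.image B) t + av y (P ∪ T.image B') t) / 2 := by
  by_cases ht : t ∈ T
  · rw [av_mem y hP hB ht, av_mem y hP hB' ht]
    have h1 : (P ∪ T.image B ∪ T.image B').filter (fun ξ => colm ξ = t) = {B t, B' t} := by
      have e : P ∪ T.image B ∪ T.image B' = (P ∪ T.image B) ∪ (P ∪ T.image B') := by
        ext ξ; simp only [Finset.mem_union]; tauto
      rw [e, Finset.filter_union, filter_union_of_mem hP hB ht, filter_union_of_mem hP hB' ht]
      rfl
    unfold av
    rw [h1, Finset.sum_pair (hne t ht), Finset.card_pair (hne t ht)]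
    norm_num
  · rw [av_notMem y hB ht, av_notMem y hB' ht]
    unfold av
    rw [filter_union_of_notMem hB' ht, filter_union_of_notMem hB ht]
    ring

variable {Ω : Type*} [MeasurableSpace Ω] [DiscreteMeasurableSpace Ω]

theorem mono_sumset {r : ℕ} (c : ℝ → Fin r) (m : Measure Ω) [IsProbabilityMeasure m]
    [NullSingletonClass m] (e : Ω → ℝ) (he : Function.Injective e) :
    ∃ X : Set ℝ, X.Infinite ∧ ∃ k : Fin r, ∀ x ∈ X, ∀ y ∈ X, c (x + y) = k := by
  classical
  obtain ⟨y, hinj, hrec⟩ := sample_exists c m e he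
  obtain ⟨T, P, B, k, hTne, hTr, hP, hB, hne, h1, h2⟩ :=
    config_exists (fun S => c (vec y S)) colm (fun t => ix t ⊤) (fun _ => rfl)
      (fun t _ Q hQ => hrec t Q hQ)
  -- a bound for the columns
  obtain ⟨R, hR⟩ : ∃ R : ℕ, (∀ ξ ∈ P, colm ξ < R) ∧ ∀ t ∈ T, t < R := by
    refine ⟨(P.sup colm) + r + 1, fun ξ hξ => ?_, fun t ht => ?_⟩
    · have := Finset.le_sup (f := colm) hξ
      omega
    · have := Finset.mem_range.1 (hTr ht)
      omega
  have hvec : ∀ n, vec y (P ∪ T.image (B n)) =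
      ∑ t ∈ Finset.range R, av y (P ∪ T.image (B n)) t := by
    intro n
    refine vec_eq_sum y _ R ?_
    intro ξ hξ
    rcases Finset.mem_union.1 hξ with h | h
    · exact hR.1 ξ h
    · obtain ⟨t, ht, rfl⟩ := Finset.mem_image.1 h
      rw [hB n t ht]
      exact hR.2 t ht
  have hvec2 : ∀ l n, l < n → vec y (P ∪ T.image (B l) ∪ T.image (B n)) =
      (vec y (P ∪ T.image (B l)) + vec y (P ∪ T.image (B n))) / 2 := by
    intro l n hln
    have e1 : vec y (P ∪ T.image (B l) ∪ T.image (B n)) =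
        ∑ t ∈ Finset.range R, av y (P ∪ T.image (B l) ∪ T.image (B n)) t := by
      refine vec_eq_sum y _ R ?_
      intro ξ hξ
      rcases Finset.mem_union.1 hξ with h | h
      · rcases Finset.mem_union.1 h with h | h
        · exact hR.1 ξ h
        · obtain ⟨t, ht, rfl⟩ := Finset.mem_image.1 h
          rw [hB l t ht]
          exact hR.2 t ht
      · obtain ⟨t, ht, rfl⟩ := Finset.mem_image.1 h
        rw [hB n t ht]
        exact hR.2 t ht
    rw [e1, hvec, hvec, ← Finset.sum_add_distrib, Finset.sum_div]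
    exact Finset.sum_congr rfl (fun t _ => av_two y hP (hB l) (hB n) (hne l n hln) t)
  have hinjv : Function.Injective (fun n => vec y (P ∪ T.image (B n)) / 2) := by
    have key : ∀ l n, l < n → vec y (P ∪ T.image (B l)) ≠ vec y (P ∪ T.image (B n)) := by
      intro l n hln heq
      rw [hvec, hvec, ← sub_eq_zero, ← Finset.sum_sub_distrib] at heq
      have e2 : ∑ t ∈ Finset.range R, (av y (P ∪ T.image (B l)) t -
          av y (P ∪ T.image (B n)) t) = ∑ t ∈ T, (y (B l t) - y (B n t)) := by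
        rw [← Finset.sum_subset (s₁ := T) (s₂ := Finset.range R)
          (fun t ht => Finset.mem_range.2 (hR.2 t ht))]
        · refine Finset.sum_congr rfl (fun t ht => ?_)
          rw [av_mem y hP (hB l) ht, av_mem y hP (hB n) ht]
        · intro t _ ht
          rw [av_notMem y (hB l) ht, av_notMem y (hB n) ht, sub_self]
      rw [e2, Finset.sum_sub_distrib, sub_eq_zero] at heq
      have himg : ∀ n, ∑ ξ ∈ T.image (B n), y ξ = ∑ t ∈ T, y (B n t) := by
        intro n
        refine Finset.sum_image ?_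
        intro s hs t ht hst
        have := congrArg colm hst
        rwa [hB n s hs, hB n t ht] at this
      rw [← himg, ← himg] at heq
      have hset := hinj _ _ heq
      obtain ⟨t, ht⟩ := hTne
      have : B l t ∈ T.image (B n) := hset ▸ Finset.mem_image_of_mem _ ht
      obtain ⟨s, hs, hst⟩ := Finset.mem_image.1 this
      have h3 := congrArg colm hst
      rw [hB n s hs, hB l t ht] at h3
      subst h3
      exact hne l n hln s hs hst.symm
    intro l n hln
    by_contra hne'
    have hln' : vec y (P ∪ T.image (B l)) = vec y (P ∪ T.image (B n)) := by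
      simp only at hln
      linarith
    rcases lt_or_gt_of_ne hne' with h | h
    · exact key l n h hln'
    · exact key n l h hln'.symm
  refine ⟨Set.range (fun n => vec y (P ∪ T.image (B n)) / 2), Set.infinite_range_of_injective hinjv,
    k, ?_⟩
  have hmain : ∀ l n, l ≤ n → c (vec y (P ∪ T.image (B l)) / 2 +
      vec y (P ∪ T.image (B n)) / 2) = k := by
    intro l n hln
    rcases hln.eq_or_lt with rfl | h
    · rw [add_halves]
      exact h1 l
    · rw [← add_div, ← hvec2 l n h]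
      exact h2 l n h
  rintro _ ⟨l, rfl⟩ _ ⟨n, rfl⟩
  simp only
  rcases le_total l n with h | h
  · exact hmain l n h
  · rw [add_comm]
    exact hmain n l h

/-- a countable colouring of the reals without nontrivial monochromatic `x + x, x + y, y + y` -/
theorem countable_colouring : ∃ c : ℝ → ℕ, ∀ X : Set ℝ, X.Infinite →
    ∃ x ∈ X, ∃ y ∈ X, ∃ z ∈ X, ∃ w ∈ X, c (x + y) ≠ c (z + w) := by
  classical
  let b := Module.Basis.ofVectorSpace ℚ ℝ
  let q : ℝ → ℚ := fun x => (b.repr x).sum (fun _ a => a ^ 2)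
  refine ⟨fun x => Encodable.encode (q x), ?_⟩
  intro X hX
  by_contra hcon
  push Not at hcon
  obtain ⟨x, hx, y, hy, hxy⟩ := hX.nontrivial
  have h1 : q (x + x) = q (x + y) := Encodable.encode_injective (hcon x hx x hx x hx y hy)
  have h2 : q (y + y) = q (x + y) := Encodable.encode_injective (hcon y hy y hy x hx y hy)
  set f := b.repr x with hf
  set g := b.repr y with hg
  let S := f.support ∪ g.support
  have hq : ∀ z : ℝ, (b.repr z).support ⊆ S → q z = ∑ i ∈ S, (b.repr z i) ^ 2 := by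
    intro z hz
    simp only [q, Finsupp.sum]
    refine Finset.sum_subset hz (fun i _ hi => ?_)
    rw [Finsupp.notMem_support_iff.1 hi]
    simp
  have hsub : ∀ u v : ℝ, (u = x ∨ u = y) → (v = x ∨ v = y) →
      (b.repr (u + v)).support ⊆ S := by
    intro u v hu hv
    rw [map_add]
    refine Finsupp.support_add.trans (Finset.union_subset ?_ ?_)
    · rcases hu with rfl | rfl
      · exact Finset.subset_union_left
      · exact Finset.subset_union_right
    · rcases hv with rfl | rfl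
      · exact Finset.subset_union_left
      · exact Finset.subset_union_right
  rw [hq _ (hsub x x (Or.inl rfl) (Or.inl rfl)), hq _ (hsub x y (Or.inl rfl) (Or.inr rfl))] at h1
  rw [hq _ (hsub y y (Or.inr rfl) (Or.inr rfl)), hq _ (hsub x y (Or.inl rfl) (Or.inr rfl))] at h2
  simp only [map_add, Finsupp.add_apply, ← hf, ← hg] at h1 h2
  have h3 : ∑ i ∈ S, (f i - g i) ^ 2 = 0 := by
    have : ∑ i ∈ S, (f i - g i) ^ 2 = (1 / 2) * ∑ i ∈ S, (f i + f i) ^ 2 +
        (1 / 2) * ∑ i ∈ S, (g i + g i) ^ 2 - ∑ i ∈ S, (f i + g i) ^ 2 := by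
      rw [Finset.mul_sum, Finset.mul_sum, ← Finset.sum_add_distrib, ← Finset.sum_sub_distrib]
      exact Finset.sum_congr rfl (fun i _ => by ring)
    rw [this, h1, h2]
    ring
  rw [Finset.sum_eq_zero_iff_of_nonneg (fun i _ => sq_nonneg _)] at h3
  have h4 : f = g := by
    ext i
    by_cases hi : i ∈ S
    · have := h3 i hi
      have := pow_eq_zero_iff (two_ne_zero) |>.1 this
      linarith
    · simp only [S, Finset.mem_union, Finsupp.mem_support_iff, not_or, not_not] at hi
      rw [hi.1, hi.2]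
  exact hxy (b.repr.injective h4)

/-- the total measure as a measure for the largest sigma-algebra -/
noncomputable def toMeasure (m : Set ℝ → ℝ) (h0 : ∀ s, 0 ≤ m s)
    (hadd : ∀ f : ℕ → Set ℝ, Pairwise (Function.onFun Disjoint f) →
      HasSum (fun n => m (f n)) (m (⋃ n, f n))) : @Measure ℝ ⊤ :=
  @Measure.ofMeasurable ℝ ⊤ (fun s _ => ENNReal.ofReal (m s))
    (by
      have h := hadd (fun _ => ∅) (by intro i j _; simp [Function.onFun])
      simp only [Set.iUnion_empty] at h
      have h1 : m ∅ = 0 := by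
        have h2 := h.summable
        rw [summable_const_iff] at h2
        exact h2
      rw [h1, ENNReal.ofReal_zero])
    (by
      intro f _ hdisj
      have h := hadd f hdisj
      rw [← h.tsum_eq, ENNReal.ofReal_tsum_of_nonneg (fun n => h0 _) h.summable])

theorem toMeasure_apply (m : Set ℝ → ℝ) (h0 : ∀ s, 0 ≤ m s)
    (hadd : ∀ f : ℕ → Set ℝ, Pairwise (Function.onFun Disjoint f) →
      HasSum (fun n => m (f n)) (m (⋃ n, f n))) (s : Set ℝ) :
    toMeasure m h0 hadd s = ENNReal.ofReal (m s) := by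
  unfold toMeasure
  exact @Measure.ofMeasurable_apply ℝ ⊤ _ _ _ s trivial

theorem final (m : Set ℝ → ℝ) (h0 : ∀ s, 0 ≤ m s) (h1 : m Set.univ = 1) (hx : ∀ x : ℝ, m {x} = 0)
    (hadd : ∀ f : ℕ → Set ℝ, Pairwise (Function.onFun Disjoint f) →
      HasSum (fun n => m (f n)) (m (⋃ n, f n))) (r : ℕ) (c : ℝ → Fin r) :
    ∃ X : Set ℝ, X.Infinite ∧ ∃ k : Fin r, ∀ x ∈ X, ∀ y ∈ X, c (x + y) = k := by
  have hp : @IsProbabilityMeasure ℝ ⊤ (toMeasure m h0 hadd) := by
    refine @IsProbabilityMeasure.mk ℝ ⊤ _ ?_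
    rw [toMeasure_apply, h1, ENNReal.ofReal_one]
  have hn : @NullSingletonClass ℝ ⊤ (toMeasure m h0 hadd) := by
    refine @NullSingletonClass.mk ℝ ⊤ _ ?_
    intro x
    rw [toMeasure_apply, hx, ENNReal.ofReal_zero]
  have hd : @DiscreteMeasurableSpace ℝ ⊤ := @DiscreteMeasurableSpace.mk ℝ ⊤ (fun _ => trivial)
  exact @mono_sumset ℝ ⊤ hd r c (toMeasure m h0 hadd) hp hn id Function.injective_id

end Pool.Agent.W907.RVM
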