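import Mathlib

set_option autoImplicit false

namespace Pool.Agent.W907.RVM

open Finset

/-- dependent choice along the natural numbers -/
theorem exists_seq {α : Type*} [Nonempty α] (Φ : ℕ → (ℕ → α) → α → Prop)
    (h : ∀ n f, ∃ x, Φ n f x)
    (hcongr : ∀ n f g x, (∀ k < n, f k = g k) → Φ n f x → Φ n g x) :
    ∃ f : ℕ → α, ∀ n, Φ n f (f n) := by
  classical
  choose Y hY using h
  obtain ⟨d⟩ := ‹Nonempty α›
  let F : (n : ℕ) → ((k : ℕ) → k < n → α) → α := fun n g =>
    Y n (fun k => if h : k < n then g k h else d)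
  let f : ℕ → α := WellFounded.fix (wellFounded_lt (α := ℕ)) F
  refine ⟨f, fun n => ?_⟩
  have h1 : f n = F n (fun k _ => f k) := WellFounded.fix_eq _ _ _
  rw [h1]
  refine hcongr n (fun k => if h : k < n then f k else d) f _ ?_ (hY n _)
  intro k hk
  simp [hk]

variable {J C : Type*} [DecidableEq J]

/-- `b` may replace `a` over `Q` -/
def Rep (col : Finset J → C) (a b : J) (Q : Finset J) : Prop :=
  b ≠ a ∧ b ∉ Q ∧ ∀ S ⊆ Q, col (insert b S) = col (insert a S)

/-- the tuple `β` on the columns `T` may replace the tuple `a` over `Q` -/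
def Near (col : Finset J → C) (π : J → ℕ) (a : ℕ → J) (T : Finset ℕ) (Q : Finset J)
    (β : ℕ → J) : Prop :=
  (∀ t ∈ T, π (β t) = t ∧ β t ∉ Q ∧ β t ≠ a t) ∧
    ∀ S ⊆ Q, col (S ∪ T.image β) = col (S ∪ T.image a)

theorem robust_exists {r : ℕ} (col : Finset J → Fin r) (π : J → ℕ) (a : ℕ → J)
    (ha : ∀ t, π (a t) = t)
    (hrec : ∀ t < r, ∀ Q : Finset J, a t ∉ Q → ∃ b, π b = t ∧ Rep col (a t) b Q) :
    ∃ i j : ℕ, i < j ∧ j ≤ r ∧ ∃ b : ℕ → J, (∀ t < i, π (b t) = t) ∧
      ∀ Q : Finset J, (∀ t ∈ Ico i j, a t ∉ Q) → ∃ β : ℕ → J, Near col π a (Ico i j) Q β ∧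
        col (((range r).image a ∪ (range i).image b) ∪ (Ico i j).image β) =
          col ((range r).image a ∪ (range i).image b) := by
  classical
  by_contra hcon
  have hQ : ∀ (b : ℕ → J) (i j : ℕ), ∃ Q : Finset J, (i < j → j ≤ r → (∀ t < i, π (b t) = t) →
      (∀ t ∈ Ico i j, a t ∉ Q) ∧ ∀ β : ℕ → J, Near col π a (Ico i j) Q β →
        col (((range r).image a ∪ (range i).image b) ∪ (Ico i j).image β) ≠
          col ((range r).image a ∪ (range i).image b)) := by
    intro b i j
    by_cases hc : i < j ∧ j ≤ r ∧ (∀ t < i, π (b t) = t)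
    · by_contra hno
      push Not at hno
      refine hcon ⟨i, j, hc.1, hc.2.1, b, hc.2.2, fun Q hQ => ?_⟩
      obtain ⟨_, _, _, h4⟩ := hno Q
      exact h4 hQ
    · refine ⟨∅, fun h1 h2 h3 => absurd ⟨h1, h2, h3⟩ hc⟩
  choose Qf hQf using hQ
  let trunc : (ℕ → J) → ℕ → ℕ → J := fun f t s => if s < t then f s else a s
  let Qs : ℕ → (ℕ → J) → Finset J := fun t f =>
    ((((range (t + 1)).biUnion fun i => (range (r + 1)).biUnion fun j => Qf (trunc f i) i j) ∪
      (range r).image a) ∪ (range t).image f).erase (a t)
  have htrunc : ∀ (f g : ℕ → J) (n i : ℕ), i ≤ n → (∀ k < n, f k = g k) →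
      trunc f i = trunc g i := by
    intro f g n i hi h
    funext s
    simp only [trunc]
    split_ifs with hs
    · exact h s (lt_of_lt_of_le hs hi)
    · rfl
  haveI : Nonempty J := ⟨a 0⟩
  obtain ⟨b, hb⟩ := exists_seq (α := J)
    (fun t f x => t < r → π x = t ∧ Rep col (a t) x (Qs t f))
    (by
      intro t f
      by_cases ht : t < r
      · obtain ⟨x, hx⟩ := hrec t ht (Qs t f) (Finset.notMem_erase _ _)
        exact ⟨x, fun _ => hx⟩
      · exact ⟨a 0, fun h => absurd h ht⟩)
    (by
      intro t f g x hfg hx ht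
      have e : Qs t f = Qs t g := by
        simp only [Qs]
        congr 1
        congr 1
        · congr 1
          refine Finset.biUnion_congr rfl (fun i hi => ?_)
          rw [htrunc f g t i (by simpa [Nat.lt_succ_iff] using hi) hfg]
        · refine Finset.image_congr (fun s hs => ?_)
          exact hfg s (by simpa using hs)
      rw [← e]
      exact hx ht)
  have hbπ : ∀ t < r, π (b t) = t := fun t ht => (hb t ht).1
  have hba : ∀ s < r, ∀ t, b s ≠ a t := by
    intro s hs t h
    have h1 := hbπ s hs
    rw [h, ha] at h1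
    subst h1
    exact (hb t hs).2.1 h
  -- the colours are pairwise distinct
  have key : ∀ i j : ℕ, i < j → j ≤ r →
      col ((range r).image a ∪ (range j).image b) ≠
        col ((range r).image a ∪ (range i).image b) := by
    intro i j hij hjr
    have htr : ∀ t < i, trunc b i t = b t := by
      intro t ht; simp [trunc, ht]
    obtain ⟨h1, h2⟩ := hQf (trunc b i) i j hij hjr
      (fun t ht => by rw [htr t ht]; exact hbπ t (by omega))
    have himg : (range i).image (trunc b i) = (range i).image b :=
      Finset.image_congr (fun s hs => htr s (by simpa using hs))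
    rw [himg] at h2
    have hnear : Near col π a (Ico i j) (Qf (trunc b i) i j) b := by
      refine ⟨fun t ht => ?_, fun S hS => ?_⟩
      · rw [Finset.mem_Ico] at ht
        obtain ⟨h3, h4, h5, -⟩ := hb t (by omega)
        refine ⟨h3, ?_, h4⟩
        intro hmem
        refine h5 (Finset.mem_erase.2 ⟨h4, ?_⟩)
        simp only [Finset.mem_union, Finset.mem_biUnion]
        exact Or.inl (Or.inl ⟨i, by simp; omega, j, by simp; omega, hmem⟩)
      · have hchain : ∀ p, i ≤ p → p ≤ j →
            col (S ∪ (Ico i p).image b ∪ (Ico p j).image a) = col (S ∪ (Ico i j).image a) := by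
          intro p hip
          induction p, hip using Nat.le_induction with
          | base => intro _; simp
          | succ p hip ih =>
            intro hpj
            rw [← ih (by omega)]
            obtain ⟨h3, h4, h5, h6⟩ := hb p (by omega)
            have e1 : S ∪ (Ico i (p + 1)).image b ∪ (Ico (p + 1) j).image a =
                insert (b p) (S ∪ (Ico i p).image b ∪ (Ico (p + 1) j).image a) := by
              rw [← Finset.insert_Ico_right_eq_Ico_add_one hip, Finset.image_insert]
              ext x
              simp only [Finset.mem_union, Finset.mem_insert]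
              tauto
            have e2 : S ∪ (Ico i p).image b ∪ (Ico p j).image a =
                insert (a p) (S ∪ (Ico i p).image b ∪ (Ico (p + 1) j).image a) := by
              rw [← Finset.insert_Ico_add_one_left_eq_Ico (show p < j by omega),
                Finset.image_insert]
              ext x
              simp only [Finset.mem_union, Finset.mem_insert]
              tauto
            rw [e1, e2]
            refine h6 _ ?_
            intro x hx
            simp only [Finset.mem_union, Finset.mem_image, Finset.mem_Ico] at hx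
            refine Finset.mem_erase.2 ⟨?_, ?_⟩
            · rcases hx with (hx | ⟨s, hs, rfl⟩) | ⟨s, hs, rfl⟩
              · rintro rfl
                exact h1 p (Finset.mem_Ico.2 ⟨hip, by omega⟩) (hS hx)
              · exact hba s (by omega) p
              · intro h
                have := congrArg π h
                rw [ha, ha] at this
                omega
            · simp only [Finset.mem_union, Finset.mem_biUnion, Finset.mem_image, Finset.mem_range]
              rcases hx with (hx | ⟨s, hs, rfl⟩) | ⟨s, hs, rfl⟩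
              · exact Or.inl (Or.inl ⟨i, by omega, j, by omega, hS hx⟩)
              · exact Or.inr ⟨s, by omega, rfl⟩
              · exact Or.inl (Or.inr ⟨s, by omega, rfl⟩)
        have := hchain j hij.le le_rfl
        simpa using this
    have h3 := h2 b hnear
    have e : (range r).image a ∪ (range i).image b ∪ (Ico i j).image b =
        (range r).image a ∪ (range j).image b := by
      rw [Finset.union_assoc, ← Finset.image_union]
      congr 2
      ext x
      simp only [Finset.mem_union, Finset.mem_range, Finset.mem_Ico]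
      omega
    rwa [e] at h3
  have hinj : Function.Injective (fun i : Fin (r + 1) =>
      col ((range r).image a ∪ (range (i : ℕ)).image b)) := by
    intro i j hij
    by_contra hne
    rcases lt_or_gt_of_ne (fun h => hne (Fin.ext h) : (i : ℕ) ≠ j) with h | h
    · exact key i j h (by omega) hij.symm
    · exact key j i h (by omega) hij
  have := Fintype.card_le_of_injective _ hinj
  simp at this

theorem config_exists {r : ℕ} (col : Finset J → Fin r) (π : J → ℕ) (a : ℕ → J)
    (ha : ∀ t, π (a t) = t)
    (hrec : ∀ t < r, ∀ Q : Finset J, a t ∉ Q → ∃ b, π b = t ∧ Rep col (a t) b Q) :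
    ∃ (T : Finset ℕ) (P : Finset J) (B : ℕ → ℕ → J) (k : Fin r), T.Nonempty ∧ T ⊆ range r ∧
      (∀ ξ ∈ P, π ξ ∉ T) ∧ (∀ n, ∀ t ∈ T, π (B n t) = t) ∧
      (∀ l n, l < n → ∀ t ∈ T, B l t ≠ B n t) ∧
      (∀ n, col (P ∪ T.image (B n)) = k) ∧
      (∀ l n, l < n → col (P ∪ T.image (B l) ∪ T.image (B n)) = k) := by
  classical
  obtain ⟨i, j, hij, hjr, b, hb, H⟩ := robust_exists col π a ha hrec
  set T := Ico i j with hT
  set P : Finset J := ((range r) \ T).image a ∪ (range i).image b with hP
  have hPT : ∀ ξ ∈ P, π ξ ∉ T := by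
    intro ξ hξ
    simp only [hP, Finset.mem_union, Finset.mem_image, Finset.mem_sdiff, Finset.mem_range] at hξ
    rcases hξ with ⟨t, ht, rfl⟩ | ⟨t, ht, rfl⟩
    · rw [ha]; exact ht.2
    · rw [hb t ht, hT, Finset.mem_Ico]; omega
  have hfull : (range r).image a ∪ (range i).image b = P ∪ T.image a := by
    ext x
    simp only [hP, hT, Finset.mem_union, Finset.mem_image, Finset.mem_sdiff, Finset.mem_range,
      Finset.mem_Ico]
    constructor
    · rintro (⟨t, ht, rfl⟩ | h)
      · by_cases h : i ≤ t ∧ t < j
        · exact Or.inr ⟨t, h, rfl⟩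
        · exact Or.inl (Or.inl ⟨t, ⟨ht, h⟩, rfl⟩)
      · exact Or.inl (Or.inr h)
    · rintro ((⟨t, ht, rfl⟩ | h) | ⟨t, ht, rfl⟩)
      · exact Or.inl ⟨t, ht.1, rfl⟩
      · exact Or.inr h
      · exact Or.inl ⟨t, by omega, rfl⟩
  rw [hfull] at H
  let Qn : ℕ → (ℕ → ℕ → J) → Finset J := fun n f =>
    P ∪ (((range n).biUnion fun l => T.image (f l)) \ T.image a)
  haveI : Nonempty J := ⟨a 0⟩
  obtain ⟨B, hB⟩ := exists_seq (α := ℕ → J)
    (fun n f x => Near col π a T (Qn n f) x ∧ col ((P ∪ T.image a) ∪ T.image x) =
      col (P ∪ T.image a))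
    (by
      intro n f
      refine H (Qn n f) ?_
      intro t ht hmem
      simp only [Qn, Finset.mem_union, Finset.mem_sdiff] at hmem
      rcases hmem with h | h
      · exact hPT _ h (by rw [ha]; exact ht)
      · exact h.2 (Finset.mem_image_of_mem a ht))
    (by
      intro n f g x hfg hx
      have e : Qn n f = Qn n g := by
        simp only [Qn]
        congr 2
        refine Finset.biUnion_congr rfl (fun l hl => ?_)
        rw [hfg l (by simpa using hl)]
      rw [← e]
      exact hx)
  have hBa : ∀ n, ∀ t ∈ T, ∀ s, B n t ≠ a s := by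
    intro n t ht s h
    have h1 := ((hB n).1.1 t ht)
    have h2 := h1.1
    rw [h, ha] at h2
    subst h2
    exact h1.2.2 h
  have hmemQ : ∀ l n, l < n → ∀ t ∈ T, B l t ∈ Qn n B := by
    intro l n hln t ht
    simp only [Qn, Finset.mem_union, Finset.mem_sdiff, Finset.mem_biUnion, Finset.mem_range,
      Finset.mem_image]
    refine Or.inr ⟨⟨l, hln, t, ht, rfl⟩, ?_⟩
    rintro ⟨s, _, hs⟩
    exact hBa l t ht s hs.symm
  refine ⟨T, P, B, col (P ∪ T.image a), ⟨i, by simp [hT, hij]⟩, ?_, hPT,
    fun n t ht => ((hB n).1.1 t ht).1, ?_, ?_, ?_⟩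
  · intro t ht
    simp only [hT, Finset.mem_Ico] at ht
    simp only [Finset.mem_range]
    omega
  · intro l n hln t ht h
    refine ((hB n).1.1 t ht).2.1 ?_
    rw [← h]
    exact hmemQ l n hln t ht
  · intro n
    exact (hB n).1.2 P Finset.subset_union_left
  · intro l n hln
    rw [(hB n).1.2 (P ∪ T.image (B l)) ?_]
    · rw [← (hB l).2]
      congr 1
      ext x
      simp only [Finset.mem_union]
      tauto
    · refine Finset.union_subset Finset.subset_union_left ?_
      intro x hx
      obtain ⟨t, ht, rfl⟩ := Finset.mem_image.1 hx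
      exact hmemQ l n hln t ht

end Pool.Agent.W907.RVM
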