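import Pool.Agent.W907.RVM.Sample

set_option autoImplicit false

open MeasureTheory Set
open scoped ENNReal

namespace Pool.Agent.W907.RVM

variable {J Ω : Type*} [MeasurableSpace Ω] [DiscreteMeasurableSpace Ω]

/-- the `n`-fold iterated integral, the first entry of the list being the outermost variable -/
noncomputable def iter (m : Measure Ω) : ℕ → (List Ω → ℝ≥0∞) → ℝ≥0∞
  | 0, F => F []
  | n + 1, F => ∫⁻ y, iter m n (fun v => F (y :: v)) ∂m

omit [DiscreteMeasurableSpace Ω] in
theorem integ_freeze [LinearOrder J] (m : Measure Ω) (l : List J) (ξ : J) (hξ : ξ ∉ l)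
    (G : Ω → (J → Ω) → ℝ≥0∞) (z : J → Ω) :
    integ m l (fun x => G (x ξ) x) z = integ m l (fun x => G (z ξ) x) z := by
  induction l generalizing z with
  | nil => rfl
  | cons a l ih =>
    simp only [integ]
    simp only [List.mem_cons, not_or] at hξ
    refine lintegral_congr (fun y => ?_)
    rw [ih hξ.2, Function.update_of_ne hξ.1]

omit [DiscreteMeasurableSpace Ω] in
theorem integ_eq_iter [LinearOrder J] (m : Measure Ω) (l : List J) (hl : l.Nodup)
    (F : List Ω → ℝ≥0∞) (x0 : J → Ω) :
    integ m l (fun x => F (l.map x)) x0 = iter m l.length F := by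
  induction l generalizing F x0 with
  | nil => rfl
  | cons ξ l ih =>
    rw [List.nodup_cons] at hl
    simp only [integ, List.length_cons, iter, List.map_cons]
    refine lintegral_congr (fun y => ?_)
    rw [integ_freeze m l ξ hl.1 (fun a x => F (a :: l.map x))]
    rw [Function.update_self]
    exact ih hl.2 (fun v => F (y :: v)) _

omit [DiscreteMeasurableSpace Ω] in
theorem iter_congr (m : Measure Ω) {n : ℕ} {F G : List Ω → ℝ≥0∞}
    (h : ∀ v : List Ω, v.length = n → F v = G v) : iter m n F = iter m n G := by
  induction n generalizing F G with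
  | zero => exact h [] rfl
  | succ n ih =>
    simp only [iter]
    refine lintegral_congr (fun y => ih (fun v hv => h _ (by simp [hv])))

omit [DiscreteMeasurableSpace Ω] in
theorem iter_mono (m : Measure Ω) {n : ℕ} {F G : List Ω → ℝ≥0∞}
    (h : ∀ v : List Ω, v.length = n → F v ≤ G v) : iter m n F ≤ iter m n G := by
  induction n generalizing F G with
  | zero => exact h [] rfl
  | succ n ih =>
    simp only [iter]
    refine lintegral_mono (fun y => ih (fun v hv => h _ (by simp [hv])))

omit [DiscreteMeasurableSpace Ω] in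
theorem iter_add (m : Measure Ω) (a b : ℕ) (F : List Ω → ℝ≥0∞) :
    iter m (a + b) F = iter m a (fun u => iter m b (fun v => F (u ++ v))) := by
  induction a generalizing F with
  | zero => simp [iter]
  | succ a ih =>
    rw [Nat.succ_add]
    simp only [iter]
    refine lintegral_congr (fun y => ?_)
    rw [ih]
    rfl

section
variable (m : Measure Ω) [IsProbabilityMeasure m]

omit [DiscreteMeasurableSpace Ω] in
theorem iter_const (n : ℕ) (c : ℝ≥0∞) : iter m n (fun _ => c) = c := by
  induction n with
  | zero => rfl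
  | succ n ih => simp [iter, ih]

theorem iter_sum (n : ℕ) {ι : Type*} (s : Finset ι) (F : ι → List Ω → ℝ≥0∞) :
    iter m n (fun v => ∑ i ∈ s, F i v) = ∑ i ∈ s, iter m n (F i) := by
  induction n generalizing F with
  | zero => rfl
  | succ n ih =>
    simp only [iter]
    rw [← lintegral_finsetSum' _ (fun _ _ => Measurable.of_discrete.aemeasurable)]
    exact lintegral_congr (fun y => ih _)

omit [DiscreteMeasurableSpace Ω] in
theorem iter_take {n k : ℕ} (hk : k ≤ n) (G : List Ω → ℝ≥0∞) :
    iter m n (fun v => G (v.take k)) = iter m k G := by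
  obtain ⟨j, rfl⟩ := Nat.exists_eq_add_of_le hk
  rw [iter_add]
  refine iter_congr m (fun u hu => ?_)
  have : (fun v : List Ω => G ((u ++ v).take k)) = fun _ => G u := by
    funext v
    rw [← hu, List.take_left']
    rfl
  rw [this, iter_const]

open Classical in
/-- the indicator that `a` has, over `w`, a value that no entry of `bs` has -/
noncomputable def newInd {Λ : Type*} (X : Ω → List Ω → Λ) (bs : List Ω) (a : Ω) (w : List Ω) :
    ℝ≥0∞ := if ∀ b ∈ bs, X a w ≠ X b w then 1 else 0

/-- the probability that the `M+1`-st value is new -/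
noncomputable def newProb {Λ : Type*} (q : ℕ) (X : Ω → List Ω → Λ) (M : ℕ) : ℝ≥0∞ :=
  iter m M (fun bs => ∫⁻ a, iter m q (fun w => newInd X bs a w) ∂m)

omit [DiscreteMeasurableSpace Ω] in
theorem newProb_anti {Λ : Type*} (q : ℕ) (X : Ω → List Ω → Λ) {k M : ℕ} (h : k ≤ M) :
    newProb m q X M ≤ newProb m q X k := by
  unfold newProb
  rw [← iter_take m h (fun bs => ∫⁻ a, iter m q (fun w => newInd X bs a w) ∂m)]
  refine iter_mono m (fun bs _ => lintegral_mono (fun a => iter_mono m (fun w _ => ?_)))
  unfold newInd
  split_ifs with h1 h2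
  · exact le_refl _
  · exact absurd (fun b hb => h1 b (List.mem_of_mem_take hb)) h2
  · simp
  · exact le_refl _

omit [MeasurableSpace Ω] [DiscreteMeasurableSpace Ω] in
theorem sum_new_le {Λ : Type*} [Fintype Λ] (X : Ω → List Ω → Λ) (K : ℕ) (c : List Ω) (d : Ω)
    (hc : c.length = K) (w : List Ω) :
    ∑ k ∈ Finset.range K, newInd X (c.take k) (c.getD k d) w ≤ (Fintype.card Λ : ℝ≥0∞) := by
  classical
  unfold newInd
  rw [Finset.sum_ite]
  simp only [Finset.sum_const, nsmul_eq_mul, mul_one, mul_zero, add_zero]
  norm_cast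
  rw [← Finset.card_univ]
  refine Finset.card_le_card_of_injOn (fun k => X (c.getD k d) w) (fun _ _ => Finset.mem_univ _) ?_
  intro i hi j hj hij
  simp only [Finset.coe_filter, Finset.mem_range, Set.mem_setOf_eq] at hi hj
  by_contra hne
  rcases lt_or_gt_of_ne hne with h | h
  · refine hj.2 (c.getD i d) ?_ hij.symm
    rw [List.getD_eq_getElem _ _ (by omega)]
    rw [List.mem_take_iff_getElem]
    exact ⟨i, by omega, rfl⟩
  · refine hi.2 (c.getD j d) ?_ hij
    rw [List.getD_eq_getElem _ _ (by omega)]
    rw [List.mem_take_iff_getElem]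
    exact ⟨j, by omega, rfl⟩

omit [DiscreteMeasurableSpace Ω] in
theorem newProb_eq {Λ : Type*} (q : ℕ) (X : Ω → List Ω → Λ) {k K : ℕ} (h : k < K) (d : Ω) :
    newProb m q X k =
      iter m K (fun c => iter m q (fun w => newInd X (c.take k) (c.getD k d) w)) := by
  have h1 : newProb m q X k = iter m (k + 1)
      (fun c => iter m q (fun w => newInd X (c.take k) (c.getD k d) w)) := by
    rw [iter_add]
    unfold newProb
    refine iter_congr m (fun bs hbs => ?_)
    simp only [iter]
    refine lintegral_congr (fun a => ?_)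
    have e1 : (bs ++ [a]).take k = bs := by rw [← hbs, List.take_left']; rfl
    have e2 : (bs ++ [a]).getD k d = a := by
      rw [List.getD_append_right _ _ _ _ (by omega), hbs]
      simp
    rw [e1, e2]
  rw [h1, ← iter_take m (Nat.succ_le_of_lt h)]
  refine iter_congr m (fun c hc => ?_)
  have e1 : (c.take (k + 1)).take k = c.take k := by
    rw [List.take_take, min_eq_left (Nat.le_succ k)]
  have e2 : (c.take (k + 1)).getD k d = c.getD k d := by
    rw [List.getD_eq_getElem _ _ (by rw [List.length_take]; omega),
      List.getD_eq_getElem _ _ (by omega), List.getElem_take]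
  simp only [Nat.succ_eq_add_one, e1, e2]

theorem newProb_le {Λ : Type*} [Fintype Λ] (q : ℕ) (X : Ω → List Ω → Λ) (M : ℕ) (d : Ω) :
    ((M : ℝ≥0∞) + 1) * newProb m q X M ≤ Fintype.card Λ := by
  calc ((M : ℝ≥0∞) + 1) * newProb m q X M
      = ∑ k ∈ Finset.range (M + 1), newProb m q X M := by simp
    _ ≤ ∑ k ∈ Finset.range (M + 1), newProb m q X k :=
        Finset.sum_le_sum (fun k hk => newProb_anti m q X
          (Nat.lt_succ_iff.1 (Finset.mem_range.1 hk)))
    _ = ∑ k ∈ Finset.range (M + 1), iter m (M + 1)
          (fun c => iter m q (fun w => newInd X (c.take k) (c.getD k d) w)) :=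
        Finset.sum_congr rfl (fun k hk => newProb_eq m q X (Finset.mem_range.1 hk) d)
    _ = iter m (M + 1) (fun c => iter m q (fun w =>
          ∑ k ∈ Finset.range (M + 1), newInd X (c.take k) (c.getD k d) w)) := by
        rw [← iter_sum]
        refine iter_congr m (fun c _ => ?_)
        rw [iter_sum]
    _ ≤ iter m (M + 1) (fun c => iter m q (fun w => (Fintype.card Λ : ℝ≥0∞))) :=
        iter_mono m (fun c hc => iter_mono m (fun w _ => sum_new_le X (M + 1) c d hc w))
    _ = Fintype.card Λ := by simp [iter_const]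

end

end Pool.Agent.W907.RVM
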