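import Pool.Agent.W907.RVM.Iter
import Pool.Agent.W907.RVM.Comb

set_option autoImplicit false

open MeasureTheory Set
open scoped ENNReal

namespace Pool.Agent.W907.RVM

/-- the index set: countably many columns of type `ω + 1` -/
abbrev JJ : Type := ℕ ×ₗ ℕ∞

/-- the column of an index -/
def colm (ξ : JJ) : ℕ := (ofLex ξ).1

/-- the index `n` of column `t` -/
def ix (t : ℕ) (n : ℕ∞) : JJ := toLex (t, n)

instance : Countable JJ := by
  unfold JJ
  exact inferInstanceAs (Countable (ℕ × WithTop ℕ))

theorem ix_lt_ix {t : ℕ} {n k : ℕ∞} (h : n < k) : ix t n < ix t k := by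
  unfold ix
  rw [Prod.Lex.toLex_lt_toLex]
  exact Or.inr ⟨rfl, h⟩

@[simp] theorem colm_ix (t : ℕ) (n : ℕ∞) : colm (ix t n) = t := rfl

/-- number of indices of `S` in column `t` -/
def cnt (S : Finset JJ) (t : ℕ) : ℕ := (S.filter (fun η => colm η = t)).card

/-- sum over the columns of the averages in the columns -/
noncomputable def vec (y : JJ → ℝ) (S : Finset JJ) : ℝ := ∑ ξ ∈ S, y ξ / (cnt S (colm ξ) : ℝ)

/-- the vector when a new index in column `t` with value `z` is added -/
noncomputable def vecAdd (y : JJ → ℝ) (S : Finset JJ) (t : ℕ) (z : ℝ) : ℝ :=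
  z / ((cnt S t : ℝ) + 1) + ∑ ξ ∈ S, y ξ / ((cnt S (colm ξ) : ℝ) + if colm ξ = t then 1 else 0)

theorem cnt_insert {S : Finset JJ} {b : JJ} (hb : b ∉ S) (t : ℕ) :
    cnt (insert b S) t = cnt S t + if colm b = t then 1 else 0 := by
  unfold cnt
  rw [Finset.filter_insert]
  split_ifs with h
  · rw [Finset.card_insert_of_notMem]
    simp [hb]
  · rfl

theorem vec_insert (y : JJ → ℝ) {S : Finset JJ} {b : JJ} (hb : b ∉ S) :
    vec y (insert b S) = vecAdd y S (colm b) (y b) := by
  unfold vec vecAdd
  rw [Finset.sum_insert hb, cnt_insert hb]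
  congr 1
  · simp
  · refine Finset.sum_congr rfl (fun ξ _ => ?_)
    rw [cnt_insert hb]
    push_cast
    by_cases h : colm ξ = colm b
    · simp [h]
    · have h' : ¬ colm b = colm ξ := fun e => h e.symm
      simp [h, h']

variable {Ω : Type*} [MeasurableSpace Ω] [DiscreteMeasurableSpace Ω]

section events
variable {r : ℕ} (c : ℝ → Fin r) (e : Ω → ℝ) (d : Ω)

/-- a bound for the indices of column `t` in `Q` -/
theorem exists_bound (t : ℕ) (Q : Finset JJ) : ∃ N : ℕ, ∀ n : ℕ, N ≤ n → ix t n ∉ Q := by
  classical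
  refine ⟨Q.sup (fun ξ => (ofLex ξ).2.toNat) + 1, fun n hn hmem => ?_⟩
  have := Finset.le_sup (f := fun ξ : JJ => (ofLex ξ).2.toNat) hmem
  simp only [ix, ofLex_toLex, ENat.toNat_natCast] at this
  omega

noncomputable def bnd (t : ℕ) (Q : Finset JJ) : ℕ := (exists_bound t Q).choose

theorem bnd_spec (t : ℕ) (Q : Finset JJ) : ∀ n : ℕ, bnd t Q ≤ n → ix t n ∉ Q :=
  (exists_bound t Q).choose_spec

noncomputable def lowL (t : ℕ) (Q : Finset JJ) : List JJ :=
  (Q.filter (fun ξ => ξ < ix t (bnd t Q))).sort (· ≤ ·)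

noncomputable def highL (t : ℕ) (Q : Finset JJ) : List JJ :=
  (Q.filter (fun ξ => ix t ⊤ < ξ)).sort (· ≤ ·)

noncomputable def midL (t : ℕ) (Q : Finset JJ) (M : ℕ) : List JJ :=
  (List.range M).map (fun i => ix t ((bnd t Q + i : ℕ) : ℕ∞))

noncomputable def allL (t : ℕ) (Q : Finset JJ) (M : ℕ) : List JJ :=
  lowL t Q ++ (midL t Q M ++ (ix t ⊤ :: highL t Q))

theorem allL_sorted (t : ℕ) (Q : Finset JJ) (M : ℕ) : (allL t Q M).Pairwise (· < ·) := by
  unfold allL
  rw [List.pairwise_append, List.pairwise_append, List.pairwise_cons]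
  have hlow : ∀ a ∈ lowL t Q, a < ix t (bnd t Q) := by
    intro a ha
    simp only [lowL, Finset.mem_sort, Finset.mem_filter] at ha
    exact ha.2
  have hhigh : ∀ a ∈ highL t Q, ix t ⊤ < a := by
    intro a ha
    simp only [highL, Finset.mem_sort, Finset.mem_filter] at ha
    exact ha.2
  have hmid : ∀ a ∈ midL t Q M, ix t (bnd t Q) ≤ a ∧ a < ix t ⊤ := by
    intro a ha
    simp only [midL, List.mem_map, List.mem_range] at ha
    obtain ⟨i, _, rfl⟩ := ha
    refine ⟨?_, ix_lt_ix (ENat.natCast_lt_top _)⟩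
    rcases Nat.eq_zero_or_pos i with rfl | h
    · simp
    · exact (ix_lt_ix (by exact_mod_cast (by omega : bnd t Q < bnd t Q + i))).le
  refine ⟨?_, ⟨?_, ⟨?_, ?_⟩, ?_⟩, ?_⟩
  · exact (Finset.sortedLT_sort _).pairwise
  · unfold midL
    rw [List.pairwise_map]
    refine List.Pairwise.imp ?_ (List.pairwise_lt_range (n := M))
    intro i j hij
    exact ix_lt_ix (by exact_mod_cast (by omega : bnd t Q + i < bnd t Q + j))
  · exact hhigh
  · exact (Finset.sortedLT_sort _).pairwise
  · intro a ha b hb
    rw [List.mem_cons] at hb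
    rcases hb with rfl | hb
    · exact (hmid a ha).2
    · exact (hmid a ha).2.trans (hhigh b hb)
  · intro a ha b hb
    rw [List.mem_append, List.mem_cons] at hb
    rcases hb with hb | rfl | hb
    · exact (hlow a ha).trans_le (hmid b hb).1
    · exact (hlow a ha).trans (ix_lt_ix (ENat.natCast_lt_top _))
    · exact ((hlow a ha).trans (ix_lt_ix (ENat.natCast_lt_top _))).trans (hhigh b hb)

/-- the value at `η` read off from the two lists of values -/
noncomputable def rd (t : ℕ) (Q : Finset JJ) (u w : List Ω) (η : JJ) : ℝ :=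
  if η ∈ lowL t Q then e (u.getD ((lowL t Q).idxOf η) d) else
    e (w.getD ((highL t Q).idxOf η) d)

/-- the colour pattern over `Q` -/
noncomputable def pat (t : ℕ) (Q : Finset JJ) (u w : List Ω) (z : Ω) :
    {S : Finset JJ // S ∈ Q.powerset} → Fin r :=
  fun S => c (vecAdd (rd e d t Q u w) S.1 t (e z))

/-- the event as a function of the list of values -/
noncomputable def evF (t : ℕ) (Q : Finset JJ) (M : ℕ) (v : List Ω) : ℝ≥0∞ :=
  newInd (fun z w => pat c e d t Q (v.take (lowL t Q).length) w z)
    ((v.drop (lowL t Q).length).take M) ((v.drop ((lowL t Q).length + M)).headD d)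
    (v.drop ((lowL t Q).length + M + 1))

omit [MeasurableSpace Ω] [DiscreteMeasurableSpace Ω] in
theorem evF_append (t : ℕ) (Q : Finset JJ) (M : ℕ) (u bs : List Ω) (z : Ω) (w : List Ω)
    (hu : u.length = (lowL t Q).length) (hbs : bs.length = M) :
    evF c e d t Q M (u ++ (bs ++ (z :: w))) =
      newInd (fun z w => pat c e d t Q u w z) bs z w := by
  unfold evF
  rw [← hu, ← hbs]
  have e1 : (u ++ (bs ++ z :: w)).take u.length = u := List.take_left' rfl
  have e2 : (u ++ (bs ++ z :: w)).drop u.length = bs ++ z :: w := List.drop_left' rfl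
  have e3 : (bs ++ z :: w).take bs.length = bs := List.take_left' rfl
  have e4 : (u ++ (bs ++ z :: w)).drop (u.length + bs.length) = z :: w := by
    rw [← List.drop_drop, e2, List.drop_left' rfl]
  have e5 : (u ++ (bs ++ z :: w)).drop (u.length + bs.length + 1) = w := by
    rw [← List.drop_drop, e4]
    rfl
  rw [e1, e2, e3, e4, e5]
  rfl

theorem iter_const_mul (m : Measure Ω) (n : ℕ) (a : ℝ≥0∞) (G : List Ω → ℝ≥0∞) :
    iter m n (fun u => a * G u) = a * iter m n G := by
  induction n generalizing G with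
  | zero => rfl
  | succ n ih =>
    simp only [iter]
    rw [← lintegral_const_mul _ Measurable.of_discrete]
    exact lintegral_congr (fun y => ih _)

theorem ev_prob (m : Measure Ω) [IsProbabilityMeasure m] (t : ℕ) (Q : Finset JJ) (M : ℕ)
    (x0 : JJ → Ω) :
    ((M : ℝ≥0∞) + 1) * integ m (allL t Q M)
      (fun x => evF c e d t Q M ((allL t Q M).map x)) x0 ≤
      Fintype.card ({S : Finset JJ // S ∈ Q.powerset} → Fin r) := by
  classical
  rw [integ_eq_iter m (allL t Q M) ((allL_sorted t Q M).imp (fun h => h.ne))]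
  have hlen : (allL t Q M).length = (lowL t Q).length + (M + ((highL t Q).length + 1)) := by
    simp [allL, midL]
  rw [hlen, iter_add]
  have h1 : iter m (lowL t Q).length (fun u => iter m (M + ((highL t Q).length + 1))
      (fun v => evF c e d t Q M (u ++ v))) =
      iter m (lowL t Q).length (fun u => newProb m (highL t Q).length
        (fun z w => pat c e d t Q u w z) M) := by
    refine iter_congr m (fun u hu => ?_)
    rw [iter_add]
    unfold newProb
    refine iter_congr m (fun bs hbs => ?_)
    simp only [iter]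
    refine lintegral_congr (fun z => iter_congr m (fun w _ => ?_))
    exact evF_append c e d t Q M u bs z w hu hbs
  rw [h1]
  have h2 : ((M : ℝ≥0∞) + 1) * iter m (lowL t Q).length (fun u => newProb m (highL t Q).length
        (fun z w => pat c e d t Q u w z) M) =
      iter m (lowL t Q).length (fun u => ((M : ℝ≥0∞) + 1) * newProb m (highL t Q).length
        (fun z w => pat c e d t Q u w z) M) :=
    (iter_const_mul m _ _ _).symm
  rw [h2]
  refine (iter_mono m (G := fun _ => (Fintype.card
    ({S : Finset JJ // S ∈ Q.powerset} → Fin r) : ℝ≥0∞)) (fun u _ => ?_)).trans ?_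
  · exact newProb_le m _ _ M d
  · rw [iter_const]

end events

/-- The sample: there is a family of points in which every limit index can be replaced by an
index below it, over any finite set, and all finite subsets have different sums. -/
theorem sample_exists {r : ℕ} (c : ℝ → Fin r) (m : Measure Ω) [IsProbabilityMeasure m]
    [NullSingletonClass m] (e : Ω → ℝ) (he : Function.Injective e) :
    ∃ y : JJ → ℝ, (∀ A B : Finset JJ, ∑ ξ ∈ A, y ξ = ∑ ξ ∈ B, y ξ → A = B) ∧
      ∀ t, ∀ Q : Finset JJ, ix t ⊤ ∉ Q → ∃ b, colm b = t ∧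
        Rep (fun S => c (vec y S)) (ix t ⊤) b Q := by
  classical
  haveI : Nonempty Ω := nonempty_of_isProbabilityMeasure m
  obtain ⟨d⟩ := ‹Nonempty Ω›
  obtain ⟨E, hE⟩ := exists_surjective_nat (ℕ × Finset JJ)
  let L : ℕ → ℕ := fun k => Fintype.card ({S : Finset JJ // S ∈ (E k).2.powerset} → Fin r)
  let M : ℕ → ℕ := fun k => L k * 2 ^ (k + 2)
  obtain ⟨x, hx1, hx2⟩ := sampling m (fun k => allL (E k).1 (E k).2 (M k))
    (fun k => allL_sorted _ _ _)
    (fun k x => evF c e d (E k).1 (E k).2 (M k) ((allL (E k).1 (E k).2 (M k)).map x))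
    (fun k x y h => by
      have : (allL (E k).1 (E k).2 (M k)).map x = (allL (E k).1 (E k).2 (M k)).map y :=
        List.map_congr_left h
      simp only [this])
    (fun ξ x => {z | ∃ A B : Finset JJ, (∀ η ∈ A, η < ξ) ∧ (∀ η ∈ B, η < ξ) ∧
      e z + ∑ η ∈ A, e (x η) = ∑ η ∈ B, e (x η)})
    (by
      intro ξ x
      refine Set.Countable.measure_zero ?_ m
      have : {z | ∃ A B : Finset JJ, (∀ η ∈ A, η < ξ) ∧ (∀ η ∈ B, η < ξ) ∧
          e z + ∑ η ∈ A, e (x η) = ∑ η ∈ B, e (x η)} ⊆
          e ⁻¹' (Set.range (fun p : Finset JJ × Finset JJ =>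
            ∑ η ∈ p.2, e (x η) - ∑ η ∈ p.1, e (x η))) := by
        rintro z ⟨A, B, _, _, h⟩
        exact ⟨(A, B), by simp only; linarith⟩
      exact Set.Countable.mono this ((Set.countable_range _).preimage he))
    (by
      intro ξ x y h
      ext z
      simp only [Set.mem_setOf_eq]
      refine exists_congr (fun A => exists_congr (fun B => ?_))
      refine and_congr_right (fun hA => and_congr_right (fun hB => ?_))
      rw [Finset.sum_congr rfl (fun η hη => by rw [h η (hA η hη)]),
        Finset.sum_congr (s₁ := B) rfl (fun η hη => by rw [h η (hB η hη)])])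
    (fun _ => d)
  -- the total probability is less than one
  have htot : ∑' k, integ m (allL (E k).1 (E k).2 (M k))
      (fun x => evF c e d (E k).1 (E k).2 (M k) ((allL (E k).1 (E k).2 (M k)).map x))
      (fun _ => d) < 1 := by
    have h1 : ∀ k, integ m (allL (E k).1 (E k).2 (M k))
      (fun x => evF c e d (E k).1 (E k).2 (M k) ((allL (E k).1 (E k).2 (M k)).map x))
      (fun _ => d) ≤ (2 : ℝ≥0∞)⁻¹ * (2 : ℝ≥0∞)⁻¹ ^ (k + 1) := by
      intro k
      have h2 := ev_prob c e d m (E k).1 (E k).2 (M k) (fun _ => d)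
      rw [mul_comm, ← ENNReal.le_div_iff_mul_le (Or.inl (by simp)) (Or.inl (by simp))] at h2
      refine h2.trans ?_
      rw [ENNReal.div_le_iff_le_mul (Or.inl (by simp)) (Or.inl (by simp))]
      have h3 : ((M k : ℕ) : ℝ≥0∞) = (L k : ℝ≥0∞) * 2 ^ (k + 2) := by
        simp only [M]
        push_cast
        ring
      rw [h3]
      have h4 : (2 : ℝ≥0∞)⁻¹ * (2 : ℝ≥0∞)⁻¹ ^ (k + 1) * ((L k : ℝ≥0∞) * 2 ^ (k + 2)) = L k := by
        have h5 : (2 : ℝ≥0∞)⁻¹ * (2 : ℝ≥0∞)⁻¹ ^ (k + 1) * 2 ^ (k + 2) = 1 := by
          rw [← pow_succ', ← mul_pow, ENNReal.inv_mul_cancel (by simp) (by simp), one_pow]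
        calc (2 : ℝ≥0∞)⁻¹ * (2 : ℝ≥0∞)⁻¹ ^ (k + 1) * ((L k : ℝ≥0∞) * 2 ^ (k + 2))
            = (L k : ℝ≥0∞) * ((2 : ℝ≥0∞)⁻¹ * (2 : ℝ≥0∞)⁻¹ ^ (k + 1) * 2 ^ (k + 2)) := by ring
          _ = L k := by rw [h5, mul_one]
      calc ((Fintype.card ({S : Finset JJ // S ∈ (E k).2.powerset} → Fin r) : ℕ) : ℝ≥0∞)
          = (2 : ℝ≥0∞)⁻¹ * (2 : ℝ≥0∞)⁻¹ ^ (k + 1) * ((L k : ℝ≥0∞) * 2 ^ (k + 2)) := h4.symm
        _ ≤ (2 : ℝ≥0∞)⁻¹ * (2 : ℝ≥0∞)⁻¹ ^ (k + 1) * ((L k : ℝ≥0∞) * 2 ^ (k + 2) + 1) := by
            gcongr
            exact le_self_add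
    refine (ENNReal.tsum_le_tsum h1).trans_lt ?_
    rw [ENNReal.tsum_mul_left]
    have h6 : ∑' k : ℕ, (2 : ℝ≥0∞)⁻¹ ^ (k + 1) = 1 := by
      have := ENNReal.tsum_geometric_add_one (2 : ℝ≥0∞)⁻¹
      rw [this]
      rw [ENNReal.one_sub_inv_two, inv_inv, ENNReal.inv_mul_cancel (by simp) (by simp)]
    rw [h6, mul_one]
    exact ENNReal.inv_lt_one.2 (by norm_num)
  refine ⟨fun ξ => e (x ξ), ?_, ?_⟩
  · -- different finite sets have different sums
    have hkey : ∀ A B : Finset JJ, ∀ ξ, ξ ∈ A → ξ ∉ B → (∀ η, ξ < η → (η ∈ A ↔ η ∈ B)) →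
        ∑ ξ ∈ A, e (x ξ) ≠ ∑ ξ ∈ B, e (x ξ) := by
      intro A B ξ hA hB hη heq
      refine hx1 ξ ⟨A.filter (· < ξ), B.filter (· < ξ), ?_, ?_, ?_⟩
      · intro η h; exact (Finset.mem_filter.1 h).2
      · intro η h; exact (Finset.mem_filter.1 h).2
      · have e1 : ∑ ξ ∈ A, e (x ξ) = ∑ η ∈ A.filter (· < ξ), e (x η) +
            (e (x ξ) + ∑ η ∈ A.filter (ξ < ·), e (x η)) := by
          rw [← Finset.sum_filter_add_sum_filter_not A (· < ξ)]
          congr 1
          have : A.filter (fun η => ¬ η < ξ) = insert ξ (A.filter (ξ < ·)) := by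
            ext η
            simp only [Finset.mem_filter, Finset.mem_insert, not_lt]
            constructor
            · rintro ⟨h1, h2⟩
              rcases h2.eq_or_lt with h | h
              · exact Or.inl h.symm
              · exact Or.inr ⟨h1, h⟩
            · rintro (rfl | ⟨h1, h2⟩)
              · exact ⟨hA, le_rfl⟩
              · exact ⟨h1, h2.le⟩
          rw [this, Finset.sum_insert (by simp)]
        have e2 : ∑ ξ ∈ B, e (x ξ) = ∑ η ∈ B.filter (· < ξ), e (x η) +
            ∑ η ∈ B.filter (ξ < ·), e (x η) := by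
          rw [← Finset.sum_filter_add_sum_filter_not B (· < ξ)]
          congr 1
          refine Finset.sum_congr ?_ (fun _ _ => rfl)
          ext η
          simp only [Finset.mem_filter, not_lt]
          constructor
          · rintro ⟨h1, h2⟩
            refine ⟨h1, lt_of_le_of_ne h2 ?_⟩
            rintro rfl
            exact hB h1
          · rintro ⟨h1, h2⟩
            exact ⟨h1, h2.le⟩
        have e3 : A.filter (ξ < ·) = B.filter (ξ < ·) := by
          ext η
          simp only [Finset.mem_filter]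
          constructor
          · rintro ⟨h1, h2⟩; exact ⟨(hη η h2).1 h1, h2⟩
          · rintro ⟨h1, h2⟩; exact ⟨(hη η h2).2 h1, h2⟩
        rw [e1, e2, e3] at heq
        linarith
    intro A B heq
    by_contra hne
    have hne2 : (symmDiff A B).Nonempty := by
      rw [Finset.nonempty_iff_ne_empty]
      intro h
      exact hne (symmDiff_eq_bot.1 h)
    set ξ := (symmDiff A B).max' hne2 with hξ
    have hmem : ξ ∈ symmDiff A B := Finset.max'_mem _ _
    have habove : ∀ η, ξ < η → (η ∈ A ↔ η ∈ B) := by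
      intro η hη
      by_contra hcon
      have : η ∈ symmDiff A B := by
        rw [Finset.mem_symmDiff]
        tauto
      exact absurd (Finset.le_max' _ η this) (not_le.2 hη)
    rw [Finset.mem_symmDiff] at hmem
    rcases hmem with ⟨h1, h2⟩ | ⟨h1, h2⟩
    · exact hkey A B ξ h1 h2 habove heq
    · exact hkey B A ξ h1 h2 (fun η hη => (habove η hη).symm) heq.symm
  · intro t Q hQ
    obtain ⟨k, hk⟩ := hE (t, Q)
    have hk1 : (E k).1 = t := by rw [hk]
    have hk2 : (E k).2 = Q := by rw [hk]
    have h0 := (hx2 k).trans_lt htot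
    simp only [hk1, hk2] at h0
    unfold allL at h0
    rw [List.map_append, List.map_append, List.map_cons, evF_append _ _ _ _ _ _ _ _ _ _
      (by simp) (by simp [midL])] at h0
    unfold newInd at h0
    split_ifs at h0 with hall
    · exact absurd h0 (lt_irrefl _)
    · push Not at hall
      obtain ⟨z, hz, hpat⟩ := hall
      rw [List.mem_map] at hz
      obtain ⟨b, hb, rfl⟩ := hz
      simp only [midL, List.mem_map, List.mem_range] at hb
      obtain ⟨i, hi, rfl⟩ := hb
      have hbQ : ix t ((bnd t Q + i : ℕ) : ℕ∞) ∉ Q := bnd_spec t Q _ (by omega)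
      refine ⟨ix t ((bnd t Q + i : ℕ) : ℕ∞), rfl, ?_, hbQ, ?_⟩
      · exact (ix_lt_ix (ENat.natCast_lt_top _)).ne
      · intro S hS
        have h1 := congrFun hpat ⟨S, Finset.mem_powerset.2 hS⟩
        simp only [pat] at h1
        have hrd : ∀ η ∈ S, rd e d t Q ((lowL t Q).map x) ((highL t Q).map x) η = e (x η) := by
          intro η hη
          have hηQ := hS hη
          unfold rd
          split_ifs with hlow
          · have := List.idxOf_lt_length_of_mem hlow
            rw [List.getD_eq_getElem _ _ (by simpa using this)]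
            simp
          · have hhigh : η ∈ highL t Q := by
              simp only [highL, Finset.mem_sort, Finset.mem_filter]
              simp only [lowL, Finset.mem_sort, Finset.mem_filter, not_and, not_lt] at hlow
              have h2 := hlow hηQ
              refine ⟨hηQ, ?_⟩
              by_contra hcon
              rw [not_lt] at hcon
              -- then `η` lies in column `t` with finite index at least the bound
              have h3 : colm η = t := by
                have h4 : (ofLex (ix t (bnd t Q))).1 ≤ (ofLex η).1 := Prod.Lex.monotone_fst_ofLex h2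
                have h5 : (ofLex η).1 ≤ (ofLex (ix t ⊤)).1 := Prod.Lex.monotone_fst_ofLex hcon
                simp only [ix, ofLex_toLex] at h4 h5
                exact le_antisymm h5 h4
              obtain ⟨⟨t', n⟩, rfl⟩ := toLex.surjective η
              simp only [colm, ofLex_toLex] at h3
              subst h3
              rcases eq_or_ne n ⊤ with rfl | hn
              · exact hQ hηQ
              · obtain ⟨n', rfl⟩ := ENat.ne_top_iff_exists.1 hn
                refine bnd_spec t' Q n' ?_ hηQ
                by_contra hlt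
                rw [not_le] at hlt
                refine absurd (h2.trans_lt ?_) (lt_irrefl _)
                exact ix_lt_ix (by exact_mod_cast hlt)
            have := List.idxOf_lt_length_of_mem hhigh
            rw [List.getD_eq_getElem _ _ (by simpa using this)]
            simp
        have hva : ∀ z, vecAdd (rd e d t Q ((lowL t Q).map x) ((highL t Q).map x)) S t z =
            vecAdd (fun ξ => e (x ξ)) S t z := by
          intro z
          unfold vecAdd
          congr 1
          exact Finset.sum_congr rfl (fun η hη => by rw [hrd η hη])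
        rw [hva, hva] at h1
        have hSb : ix t ((bnd t Q + i : ℕ) : ℕ∞) ∉ S := fun h => hbQ (hS h)
        have hSa : ix t ⊤ ∉ S := fun h => hQ (hS h)
        simp only [vec_insert _ hSb, vec_insert _ hSa, colm_ix]
        exact h1.symm

/-- columnwise computation of `vec` -/
theorem vec_eq_sum (y : JJ → ℝ) (S : Finset JJ) (r : ℕ) (hS : ∀ ξ ∈ S, colm ξ < r) :
    vec y S = ∑ t ∈ Finset.range r, (∑ ξ ∈ S.filter (fun ξ => colm ξ = t), y ξ) /
      ((S.filter (fun ξ => colm ξ = t)).card : ℝ) := by
  classical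
  unfold vec
  rw [← Finset.sum_fiberwise_of_maps_to (s := S) (t := Finset.range r) (g := colm)
    (fun ξ hξ => Finset.mem_range.2 (hS ξ hξ))]
  refine Finset.sum_congr rfl (fun t _ => ?_)
  rw [Finset.sum_div]
  refine Finset.sum_congr rfl (fun ξ hξ => ?_)
  rw [(Finset.mem_filter.1 hξ).2]
  rfl

end Pool.Agent.W907.RVM
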