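import Mathlib

set_option autoImplicit false

open MeasureTheory Set
open scoped ENNReal

namespace Pool.Agent.W907.RVM

variable {J Ω : Type*} [LinearOrder J] [MeasurableSpace Ω] [DiscreteMeasurableSpace Ω]

/-- integrate out the coordinates in the list, the first of them outermost -/
noncomputable def integ (m : Measure Ω) : List J → ((J → Ω) → ℝ≥0∞) → (J → Ω) → ℝ≥0∞
  | [], f => f
  | ξ :: l, f => fun x => ∫⁻ y, integ m l f (Function.update x ξ y) ∂m

/-- `f` depends only on the coordinates in `s` -/
def Dep (s : List J) (f : (J → Ω) → ℝ≥0∞) : Prop :=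
  ∀ x y : J → Ω, (∀ ξ ∈ s, x ξ = y ξ) → f x = f y

omit [DiscreteMeasurableSpace Ω] in
theorem integ_congr (m : Measure Ω) {s : List J} {f : (J → Ω) → ℝ≥0∞} (hf : Dep s f)
    (l : List J) (x y : J → Ω) (h : ∀ ξ ∈ s, ξ ∉ l → x ξ = y ξ) :
    integ m l f x = integ m l f y := by
  induction l generalizing x y with
  | nil => exact hf x y (fun ξ hξ => h ξ hξ (by simp))
  | cons ξ l ih =>
    simp only [integ]
    refine lintegral_congr (fun z => ih _ _ ?_)
    intro η hη hηl
    by_cases hηξ : η = ξ
    · subst hηξ; simp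
    · rw [Function.update_of_ne hηξ, Function.update_of_ne hηξ]
      exact h η hη (by simp [hηξ, hηl])

omit [MeasurableSpace Ω] [DiscreteMeasurableSpace Ω] in
theorem filter_le_eq {l : List J} (hl : l.Pairwise (· < ·)) (ξ : J) :
    l.filter (fun η => decide (ξ ≤ η)) =
      if ξ ∈ l then ξ :: l.filter (fun η => decide (ξ < η)) else
        l.filter (fun η => decide (ξ < η)) := by
  induction l with
  | nil => simp
  | cons a l ih =>
    rw [List.pairwise_cons] at hl
    have ih' := ih hl.2
    rw [List.filter_cons, List.filter_cons]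
    rcases lt_trichotomy a ξ with h | h | h
    · have h1 : ¬ ξ ≤ a := not_le.2 h
      have h2 : ¬ ξ < a := not_lt.2 h.le
      have h3 : (ξ ∈ a :: l) ↔ ξ ∈ l := by simp [h.ne']
      simp only [h1, h2, decide_false, Bool.false_eq_true, if_false, h3, ih']
    · subst h
      have h1 : a ∉ l := fun hmem => lt_irrefl a (hl.1 a hmem)
      simp only [le_refl, decide_true, if_true, lt_irrefl, decide_false, Bool.false_eq_true,
        if_false, List.mem_cons, true_or]
      rw [ih', if_neg h1]
    · have h1 : ξ ∉ l := fun hmem => lt_asymm h (hl.1 ξ hmem)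
      have h3 : ¬ (ξ ∈ a :: l) := by simp [h.ne, h1]
      simp only [h.le, h, decide_true, if_true, if_neg h3]
      rw [ih', if_neg h1]

section
variable (m : Measure Ω) [IsProbabilityMeasure m]

omit [DiscreteMeasurableSpace Ω] in
theorem integ_filter_step {l : List J} (hl : l.Pairwise (· < ·)) {f : (J → Ω) → ℝ≥0∞}
    (hf : Dep l f) (ξ : J) (x : J → Ω) :
    integ m (l.filter (fun η => decide (ξ ≤ η))) f x =
      ∫⁻ y, integ m (l.filter (fun η => decide (ξ < η))) f (Function.update x ξ y) ∂m := by
  rw [filter_le_eq hl ξ]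
  split_ifs with h
  · rfl
  · have : ∀ y, integ m (l.filter (fun η => decide (ξ < η))) f (Function.update x ξ y) =
        integ m (l.filter (fun η => decide (ξ < η))) f x := by
      intro y
      refine integ_congr m hf _ _ _ ?_
      intro η hη _
      rw [Function.update_of_ne]
      rintro rfl
      exact h hη
    simp only [this, lintegral_const, measure_univ, mul_one]

/-- The sampling lemma: countably many events of total probability less than one can be avoided
by one point of the power `J → Ω`. -/
theorem sampling [WellFoundedLT J] (l : ℕ → List J) (hl : ∀ k, (l k).Pairwise (· < ·))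
    (f : ℕ → (J → Ω) → ℝ≥0∞) (hf : ∀ k, Dep (l k) (f k))
    (N : J → (J → Ω) → Set Ω) (hN : ∀ ξ x, m (N ξ x) = 0)
    (hNd : ∀ ξ x y, (∀ η < ξ, x η = y η) → N ξ x = N ξ y) (x0 : J → Ω) :
    ∃ x : J → Ω, (∀ ξ, x ξ ∉ N ξ x) ∧ ∀ k, f k x ≤ ∑' k, integ m (l k) (f k) x0 := by
  classical
  set W0 := ∑' k, integ m (l k) (f k) x0 with hW0
  let Wle : J → (J → Ω) → ℝ≥0∞ := fun ξ x =>
    ∑' k, integ m ((l k).filter (fun η => decide (ξ < η))) (f k) x
  let Wlt : J → (J → Ω) → ℝ≥0∞ := fun ξ x =>
    ∑' k, integ m ((l k).filter (fun η => decide (ξ ≤ η))) (f k) x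
  have hle_congr : ∀ ξ x y, (∀ η ≤ ξ, x η = y η) → Wle ξ x = Wle ξ y := by
    intro ξ x y h
    refine tsum_congr (fun k => integ_congr m (hf k) _ _ _ ?_)
    intro η hη hη2
    refine h η ?_
    by_contra hcon
    exact hη2 (List.mem_filter.2 ⟨hη, by simpa using hcon⟩)
  have hlt_congr : ∀ ξ x y, (∀ η < ξ, x η = y η) → Wlt ξ x = Wlt ξ y := by
    intro ξ x y h
    refine tsum_congr (fun k => integ_congr m (hf k) _ _ _ ?_)
    intro η hη hη2
    refine h η ?_
    by_contra hcon
    exact hη2 (List.mem_filter.2 ⟨hη, by simpa using hcon⟩)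
  have hstep : ∀ ξ x, ∃ y, y ∉ N ξ x ∧ Wle ξ (Function.update x ξ y) ≤ Wlt ξ x := by
    intro ξ x
    obtain ⟨y, hy, hy2⟩ := exists_notMem_null_le_lintegral (μ := m)
      (f := fun y => Wle ξ (Function.update x ξ y)) (Measurable.of_discrete.aemeasurable) (hN ξ x)
    refine ⟨y, hy, hy2.trans (le_of_eq ?_)⟩
    simp only [Wle, Wlt]
    rw [lintegral_tsum (fun k => Measurable.of_discrete.aemeasurable)]
    exact tsum_congr (fun k => (integ_filter_step m (hl k) (hf k) ξ x).symm)
  choose Y hY1 hY2 using hstep
  -- the recursion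
  have hrec : ∃ x : J → Ω, ∀ ξ, x ξ = Y ξ (fun η => if η < ξ then x η else x0 η) := by
    let F : (ξ : J) → ((η : J) → η < ξ → Ω) → Ω := fun ξ g =>
      Y ξ (fun η => if h : η < ξ then g η h else x0 η)
    let x : J → Ω := WellFounded.fix (wellFounded_lt (α := J)) F
    refine ⟨x, fun ξ => ?_⟩
    have h1 : x ξ = F ξ (fun η _ => x η) := WellFounded.fix_eq _ _ _
    rw [h1]
    simp only [F]
    congr 1
  obtain ⟨x, hx⟩ := hrec
  have hxle : ∀ ξ, Wle ξ x ≤ Wlt ξ x := by
    intro ξ
    set z : J → Ω := fun η => if η < ξ then x η else x0 η with hz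
    have h1 : Wle ξ x = Wle ξ (Function.update z ξ (x ξ)) := by
      refine hle_congr ξ _ _ ?_
      intro η hη
      rcases hη.lt_or_eq with h | h
      · rw [Function.update_of_ne h.ne, hz]
        simp [h]
      · subst h; simp
    have h2 : Wlt ξ x = Wlt ξ z := by
      refine hlt_congr ξ _ _ ?_
      intro η hη
      simp [hz, hη]
    rw [h1, h2, hx ξ]
    exact hY2 ξ z
  have hW : ∀ ξ, Wle ξ x ≤ W0 := by
    intro ξ
    induction ξ using (wellFounded_lt (α := J)).induction with
    | _ ξ ih =>
      refine (hxle ξ).trans ?_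
      simp only [Wlt]
      refine ENNReal.tsum_le_of_sum_range_le ?_
      intro n
      -- the finitely many coordinates below `ξ`
      let s : Finset J := ((Finset.range n).biUnion (fun k => (l k).toFinset)).filter (· < ξ)
      by_cases hs : s.Nonempty
      · set η := s.max' hs with hη
        have hηs : η ∈ s := Finset.max'_mem _ _
        have hηξ : η < ξ := (Finset.mem_filter.1 hηs).2
        refine le_trans ?_ (ih η hηξ)
        refine le_trans (le_of_eq ?_) (ENNReal.sum_le_tsum (Finset.range n))
        refine Finset.sum_congr rfl (fun k hk => ?_)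
        congr 1
        refine List.filter_congr (fun ζ hζ => ?_)
        simp only [decide_eq_decide]
        constructor
        · intro h; exact lt_of_lt_of_le hηξ h
        · intro h
          by_contra hcon
          have : ζ ∈ s := Finset.mem_filter.2 ⟨Finset.mem_biUnion.2 ⟨k, hk, by simpa using hζ⟩,
            not_le.1 hcon⟩
          exact absurd (Finset.le_max' s ζ this) (not_le.2 h)
      · rw [Finset.not_nonempty_iff_eq_empty] at hs
        refine le_trans (le_of_eq ?_) (ENNReal.sum_le_tsum (Finset.range n))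
        refine Finset.sum_congr rfl (fun k hk => ?_)
        have h1 : (l k).filter (fun η => decide (ξ ≤ η)) = l k := by
          rw [List.filter_eq_self]
          intro ζ hζ
          simp only [decide_eq_true_eq]
          by_contra hcon
          have : ζ ∈ s := Finset.mem_filter.2 ⟨Finset.mem_biUnion.2 ⟨k, hk, by simpa using hζ⟩,
            not_le.1 hcon⟩
          rw [hs] at this
          simp at this
        rw [h1]
        exact integ_congr m (hf k) _ _ _ (fun ζ hζ hζ' => absurd hζ hζ')
  refine ⟨x, ?_, ?_⟩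
  · intro ξ
    have h1 : N ξ x = N ξ (fun η => if η < ξ then x η else x0 η) := by
      refine hNd ξ _ _ ?_
      intro η hη
      simp [hη]
    rw [h1, hx ξ]
    exact hY1 ξ _
  · intro k
    by_cases hk : (l k).toFinset.Nonempty
    · set η := (l k).toFinset.max' hk with hη
      have h1 : (l k).filter (fun ζ => decide (η < ζ)) = [] := by
        rw [List.filter_eq_nil_iff]
        intro ζ hζ
        simp only [decide_eq_true_eq, not_lt]
        exact Finset.le_max' _ _ (by simpa using hζ)
      have h2 : f k x = integ m ((l k).filter (fun ζ => decide (η < ζ))) (f k) x := by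
        rw [h1]; rfl
      rw [h2]
      exact (ENNReal.le_tsum (f := fun k =>
        integ m ((l k).filter (fun ζ => decide (η < ζ))) (f k) x) k).trans (hW η)
    · rw [Finset.not_nonempty_iff_eq_empty, List.toFinset_eq_empty_iff] at hk
      have h2 : f k x = integ m (l k) (f k) x0 := by
        rw [hk]
        exact hf k _ _ (by rw [hk]; simp)
      rw [h2]
      exact ENNReal.le_tsum (f := fun k => integ m (l k) (f k) x0) k

end

end Pool.Agent.W907.RVM
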